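import Pool.Agent.Lib.MP_990a44_co.Lower
import Pool.Agent.Lib.MP_990a44_co.Q3Arith

namespace Pool.Agent.Results.MP_990a44_co.Full

/-- For every alphabet size `q ≥ 3` the largest product `|A| * |B|` of a constant distance
code pair equals Ahlswede's value `F_q(n, δ)`. -/
theorem result (q n δ : ℕ) (hq : 3 ≤ q) (hδ : δ ≤ n) :
    IsGreatest
      {N : ℕ | ∃ A B : Finset (Fin n → Fin q),
        (∀ a ∈ A, ∀ b ∈ B, hammingDist a b = δ) ∧ N = A.card * B.card}
      (if q = 3 then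
        ((Finset.range (δ + 1) ×ˢ Finset.range (δ + 1)).filter
          fun p : ℕ × ℕ => 2 * p.1 + p.2 = δ ∧ 3 * p.1 ≤ n).sup fun p : ℕ × ℕ =>
            2 ^ p.2 * 18 ^ p.1 * (n - 3 * p.1).choose p.2
      else
        (Finset.HasAntidiagonal.antidiagonal δ).sup fun p : ℕ × ℕ =>
          (q - 1) ^ p.2 * ((q / 2) * ((q + 1) / 2)) ^ p.1 * (n - p.1).choose p.2) := by
  split_ifs with h
  · subst h
    exact Pool.Agent.Lib.MP_990a44_co.Q3.main_three Pool.Agent.Lib.MP_990a44_co.Q3.arith n δ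
  · exact Pool.Agent.Lib.MP_990a44_co.main_ge4 q n δ (by omega) hδ

end Pool.Agent.Results.MP_990a44_co.Full
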